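import Pool.Agent.K9h2.TBG.Discrete

/-!
No finite union of rotated and translated copies of the triangular lattice is a uniformly discrete
dense forest.
-/

set_option autoImplicit false

open Pool.Agent.K9h2.Bilayer

/-- For every `k`, a union of `k` rotated and translated copies of the triangular lattice is not
both uniformly discrete and a dense forest. -/
theorem Pool.Agent.Results.MP_b83ca4_nt.NeverUniformlyDiscrete.result :
    ∀ (k : ℕ) (x : Fin k → ℂ) (θ : Fin k → Circle),
      ¬ (IsUnifDiscrete (TBG k x θ) ∧ IsDenseForest (TBG k x θ)) :=
  not_unifDiscrete_forest
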